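import Pool.Agent.X32.Uni.Tot

/-!
# Almost solutions `x` of Goldbach's totient system with prescribed polynomials of `x` almost prime, for every `n`

Let `g_1, ..., g_m` be nonconstant integer polynomials of total degree at most `d`; they may depend on `n`, only
`|g_l(x)| ≤ K n ^ (deg g_l)` for `0 ≤ x ≤ n` is assumed, and that no prime divides `(n - x)(n + x) ∏ g_l(x)` for all `x`.
For EVERY large `n`, both signs `e = ±1` and every interval `(A, B]` with `B < n`, `B - A ≥ θ n` at least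
`κ (B - A) V` integers `x` of the interval are such that
* `φ(n - e x) + 1 = n - e x` (the first equation of the system, for `e = 1`);
* `|φ(n + e x) + 1 - (n + e x)| ≤ 2 (n + e x) / n ^ (1 / 9)`, moreover `n + e x` is a product of at most two primes
  `> n ^ (1 / 9)` (the second equation holds up to a small error, and exactly if there is only one prime factor);
* all `|g_l(x)|` are products of at most `t deg g_l` primes `> n ^ (1 / t)`.
Here `V` is the product of `1 - ω(p) / p` over the primes `p ≤ n`, where `ω(p)` is the number of the zeros of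
`(n - x)(n + x) ∏ g_l(x)` modulo `p`; so this is the order of magnitude conjectured for the number of the solutions `x`
of the system with all `|g_l(x)|` prime. For all `s`, every `δ > 0` and every colouring with `r` colours all but
at most `δ (B - A) V` of these `x` are covered by pairwise disjoint monochromatic `s`-term progressions of such `x`
with differences `≤ (log n) ^ c`, where `c` does not depend on `n` and on the `g_l`.
-/

set_option autoImplicit false

namespace Pool.Agent.Results.MP_967f73_nt.ChenWithPolynomials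

open Finset
open scoped Polynomial

variable {m : ℕ}

/-- Euler's function at an integer -/
def phi (v : ℤ) : ℤ := (Nat.totient v.toNat : ℤ)

/-- `|v| > 1`, and `|v|` is a product of at most `r` primes, all of them larger than `y` -/
def Almost (r : ℕ) (y : ℝ) (v : ℤ) : Prop :=
  1 < |v| ∧ v.natAbs.primeFactorsList.length ≤ r ∧ ∀ q : ℕ, q.Prime → (q : ℤ) ∣ v → y < q

/-- no prime divides `(n - x)(n + x) ∏ g_l(x)` for all `x` -/
def Admissible (n : ℕ) (g : Fin m → ℤ[X]) : Prop :=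
  ∀ p : ℕ, p.Prime → ∃ x : ℤ, ¬ (p : ℤ) ∣ (n - x) * (n + x) * ∏ l, (g l).eval x

/-- `ω(p)`: the number of the zeros of `(n - x)(n + x) ∏ g_l(x)` modulo `p` -/
noncomputable def omega (n : ℕ) (g : Fin m → ℤ[X]) (p : ℕ) : ℕ :=
  ((range p).filter (fun x : ℕ => (p : ℤ) ∣ ((n : ℤ) - x) * (n + x) * ∏ l, (g l).eval (x : ℤ))).card

/-- the product of `1 - ω(p) / p` over the primes `p ≤ n` -/
noncomputable def V (n : ℕ) (g : Fin m → ℤ[X]) : ℝ :=
  ∏ p ∈ (Icc 1 n).filter Nat.Prime, (1 - (omega n g p : ℝ) / p)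

open Classical in
/-- the integers `x` of `(A, B]` described above -/
noncomputable def Good (n : ℕ) (e : ℤ) (g : Fin m → ℤ[X]) (t A B : ℕ) : Finset ℕ :=
  (Ioc A B).filter (fun x : ℕ => phi (n - e * x) + 1 = n - e * x ∧
    |((phi (n + e * x) + 1 - (n + e * x) : ℤ) : ℝ)| ≤ 2 * ((n : ℝ) + e * x) / (n : ℝ) ^ (1 / 9 : ℝ) ∧
    Almost 2 ((n : ℝ) ^ (1 / 9 : ℝ)) (n + e * x) ∧
    (n : ℝ) ^ (1 / (t : ℝ)) < n - e * x ∧ Almost t ((n : ℝ) ^ (1 / (t : ℝ))) (n + e * x) ∧
    ∀ l, Almost (t * (g l).natDegree) ((n : ℝ) ^ (1 / (t : ℝ))) ((g l).eval (x : ℤ)))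

/-- the terms `a, a + b, ..., a + (s - 1) b` of the progression `z = (a, b)` -/
def terms (s : ℕ) (z : ℕ × ℕ) : Finset ℕ := (range s).image (fun i => z.1 + i * z.2)

theorem result (d : ℕ) : ∃ t : ℕ, 1 ≤ t ∧ ∃ κ : ℝ, 0 < κ ∧ ∀ (K s r : ℕ) (θ δ : ℝ), 1 ≤ s → 0 < θ → 0 < δ →
    ∃ c n₀ : ℕ, ∀ n : ℕ, n₀ ≤ n → ∀ (m : ℕ) (g : Fin m → ℤ[X]), (∀ l, 1 ≤ (g l).natDegree) →
      ∑ l, (g l).natDegree ≤ d →
      (∀ l, ∀ x : ℤ, 0 ≤ x → x ≤ n → |(g l).eval x| ≤ K * (n : ℤ) ^ (g l).natDegree) → Admissible n g →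
      κ / Real.log n ^ (d + 2) ≤ V n g ∧ ∀ e : ℤ, (e = 1 ∨ e = -1) → ∀ A B : ℕ, B < n → θ * n ≤ (B : ℝ) - A →
        κ * ((B : ℝ) - A) * V n g ≤ ((Good n e g t A B).card : ℝ) ∧
        ∀ χ : ℕ → Fin r, ∃ P : Finset (ℕ × ℕ),
          (∀ z ∈ P, 1 ≤ z.2 ∧ (z.2 : ℝ) ≤ Real.log n ^ c ∧
            ∀ l < s, z.1 + l * z.2 ∈ Good n e g t A B ∧ χ (z.1 + l * z.2) = χ z.1) ∧
          (P : Set (ℕ × ℕ)).PairwiseDisjoint (terms s) ∧
          (((Good n e g t A B \ P.biUnion (terms s)).card : ℕ) : ℝ) ≤ δ * ((B : ℝ) - A) * V n g :=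
  Pool.Agent.X32.Uni.totP d

end Pool.Agent.Results.MP_967f73_nt.ChenWithPolynomials
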