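import Mathlib
import Pool.Agent.W23.SG.All
import Pool.Agent.W23.DC.All

/-! Sums and differences of a prime from an arbitrary dense set of primes and an almost prime: all but a bounded
number of integers `N` are represented. -/

set_option autoImplicit false

namespace Pool.Agent.Results.MP_967f73_nt.DenseSetsAlmostPrime
open Finset

/-- `|n| = m s` with `m ≤ X ^ ε` and `s > 1`, where `s` has at most two prime factors (with multiplicity), all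
larger than `X ^ (1 / 7)` -/
def AlmostPrime (X : ℕ) (ε : ℝ) (n : ℤ) : Prop :=
  ∃ m s : ℕ, n.natAbs = m * s ∧ (m : ℝ) ≤ (X : ℝ) ^ ε ∧ 1 < s ∧ s.primeFactorsList.length ≤ 2 ∧
    ∀ q ∈ s.primeFactors, (X : ℝ) ^ (1 / 7 : ℝ) < q

/-- `n ≠ 0` has at most two prime factors (with multiplicity) larger than `X ^ (1 / 7)`, and all its other prime
factors are less than `X ^ ε` -/
def Gap (X : ℕ) (ε : ℝ) (n : ℤ) : Prop :=
  n ≠ 0 ∧ ∃ m s : ℕ, n.natAbs = m * s ∧ (∀ l : ℕ, l.Prime → l ∣ m → (l : ℝ) < (X : ℝ) ^ ε) ∧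
    s.primeFactorsList.length ≤ 2 ∧ ∀ q ∈ s.primeFactors, (X : ℝ) ^ (1 / 7 : ℝ) < q

open Classical in
theorem result :
    -- dense sets
    (∀ δ ε : ℝ, 0 < δ → 0 < ε → ∃ (c : ℝ) (K : ℕ), 0 < c ∧ ∀ X : ℕ, 2 ≤ X → ∀ A : Finset ℕ,
      (∀ p ∈ A, p.Prime ∧ p ≤ X) → δ * X / Real.log X ≤ A.card →
      ((Icc (-(2 * X : ℤ)) (2 * X)).filter (fun N : ℤ =>
        ((A.filter (fun p : ℕ => AlmostPrime X ε (N - p))).card : ℝ) < c * A.card)).card ≤ K) ∧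
    -- sparse sets
    (∀ ε : ℝ, 0 < ε → ∃ c C η : ℝ, 0 < c ∧ 0 < η ∧ ∀ X : ℕ, 2 ≤ X → ∀ A : Finset ℕ,
      (∀ p ∈ A, p.Prime ∧ p ≤ X) → (X : ℝ) ^ (1 - η) ≤ A.card →
      (((Icc (-(2 * X : ℤ)) (2 * X)).filter (fun N : ℤ =>
        ((A.filter (fun p : ℕ => Gap X ε (N - p))).card : ℝ) < c * A.card)).card : ℝ) ≤
        C * (X / (A.card * Real.log X))) := by
  constructor
  · intro δ ε hδ hε
    obtain ⟨c, K, hc, h⟩ := Pool.Agent.W23.DC.dense_almost_prime δ ε hδ hε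
    exact ⟨c, K, hc, h⟩
  · intro ε hε
    obtain ⟨c, C, η, hc, hη, h⟩ := Pool.Agent.W23.SG.sparse_sets ε hε
    refine ⟨c, C, η, hc, hη, fun X hX A hA hAc => ?_⟩
    have h1 := h X hX A hA hAc
    have e : ∀ (N : ℤ) (p : ℕ), ((p : ℤ) ≠ N ∧ ∃ m s : ℕ, (N - p).natAbs = m * s ∧
          (∀ l : ℕ, l.Prime → l ∣ m → (l : ℝ) < (X : ℝ) ^ ε) ∧
          s.primeFactorsList.length ≤ 2 ∧
          ∀ q ∈ s.primeFactors, (X : ℝ) ^ (1 / 7 : ℝ) < q) ↔ Gap X ε (N - p) := by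
      intro N p
      unfold Gap
      rw [sub_ne_zero]
      exact ⟨fun ⟨a, b⟩ => ⟨fun h => a h.symm, b⟩, fun ⟨a, b⟩ => ⟨fun h => a h.symm, b⟩⟩
    simp only [e] at h1
    exact h1

end Pool.Agent.Results.MP_967f73_nt.DenseSetsAlmostPrime
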