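import Pool.Agent.X25.GM.Fin2

/-!
# MP_967f73_nt: Maier's phenomenon for Goldbach's problem

For an integer `n` consider the integral solutions `x` of the system `φ(n - x) + 1 = n - x`, `φ(n + x) + 1 = n + x`.
The conjecture of Hardy and Littlewood predicts about `𝔖(2n) H / (log n)²` of them in a window `(a, a + H]` with
`|a| ≤ n / 2`, hence `𝔖(2n) (log n)^(B - 2)` for `H = (log n)^B`. We prove that this is false for windows of
such length, for every power `B`: for every `B` and `ε > 0` there is a `δ > 0` such that for all large `X` at least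
`X exp(-(log X)^ε)` of the integers `n ≤ X` have a window of length `(log n)^B` with at least `(1 + δ)` times the
expected number of solutions, and at least as many `n` have a window with at most `(1 - δ)` times the expected number.
(The content is in the exponents `B > 2`, where the expected number tends to infinity.)

Method: Maier's matrix with two primes. Let `W` be the product of the primes in a suitable range
`((log X)^(B/(k+1)), (log X)^(2B/(2k+1))]`. If `u` and `v` are multiples of `W` then `u - h` and `v + h` can be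
primes only for `h` prime to `W`, and by Maier's sieve argument the number of such `h ≤ (log X)^B` differs from
`φ(W) / W · (log X)^B` by a constant factor (in the sense of the parity of `k`). The numbers `u - h` and
`v + h` vary independently, so the number of all triples `(u, v, h)` with both primes follows from the prime number
theorem in progressions modulo `W`. It is compared with the mean value of `𝔖(u + v)` over the pairs of multiples
of `W`, which is calculated here by expanding the singular series. For `n = (u + v) / 2` and `a = (v - u) / 2` the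
triples are the solutions `x = a + h` in the window.
-/

set_option autoImplicit false

namespace Pool.Agent.Results.MP_967f73_nt.IrregularWindows

open Finset

/-- The integer `x` is an integral solution of the system `φ(n - x) + 1 = n - x`, `φ(n + x) + 1 = n + x`
(`n - x = p ≥ 1`, `n + x = q ≥ 1`). -/
def Solves (n : ℕ) (x : ℤ) : Prop :=
  ∃ p q : ℕ, 1 ≤ p ∧ 1 ≤ q ∧ (p : ℤ) = n - x ∧ (q : ℤ) = n + x ∧ p.totient + 1 = p ∧ q.totient + 1 = q

open Classical in
/-- The solutions in the window `(a, a + H]`. -/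
noncomputable def sols (n : ℕ) (a : ℤ) (H : ℕ) : Finset ℤ := (Ioc a (a + H)).filter (Solves n)

/-- The twin prime constant `∏_{p > 2} (1 - 1 / (p - 1)²)`. -/
noncomputable def twin : ℝ := ⨅ z : ℕ, ∏ p ∈ (Icc 3 z).filter Nat.Prime, (1 - 1 / ((p : ℝ) - 1) ^ 2)

/-- The singular series `𝔖(m) = 2 C₂ ∏_{p ∣ m, p > 2} (p - 1) / (p - 2)` of Goldbach's problem. -/
noncomputable def sing (m : ℕ) : ℝ :=
  2 * twin * ∏ p ∈ m.primeFactors.filter (fun p => 2 < p), ((p : ℝ) - 1) / ((p : ℝ) - 2)

/-- The length `⌊(log n)^B⌋` of the windows. -/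
noncomputable def len (B : ℝ) (n : ℕ) : ℕ := ⌊(Real.log n) ^ B⌋₊

/-- The expected number `𝔖(2n) (log n)^(B - 2)` of solutions in a window of length `(log n)^B`. -/
noncomputable def expected (B : ℝ) (n : ℕ) : ℝ := sing (2 * n) * (Real.log n) ^ (B - 2)

/-- Some window of length `(log n)^B` has at least `1 + δ` times the expected number of solutions. -/
def Crowded (B δ : ℝ) (n : ℕ) : Prop :=
  ∃ a : ℤ, 2 * |a| ≤ n ∧ (1 + δ) * expected B n ≤ ((sols n a (len B n)).card : ℝ)

/-- Some window of length `(log n)^B` has at most `1 - δ` times the expected number of solutions. -/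
def Thin (B δ : ℝ) (n : ℕ) : Prop :=
  ∃ a : ℤ, 2 * |a| ≤ n ∧ ((sols n a (len B n)).card : ℝ) ≤ (1 - δ) * expected B n

theorem tot_prime {p : ℕ} (h : p.totient + 1 = p) : p.Prime := by
  have h1 : p.totient = p - 1 := by omega
  rcases Nat.lt_or_ge p 2 with h2 | h2
  · have : p = 0 ∨ p = 1 := by omega
    rcases this with rfl | rfl <;> simp at h
  · exact (Nat.totient_eq_iff_prime (by omega)).1 h1

theorem sols_card (n u v Y : ℕ) (huv : u + v = 2 * n) :
    (sols n ((v : ℤ) - n) Y).card = Pool.Agent.X25.GM.rr Y u v := by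
  classical
  unfold sols Pool.Agent.X25.GM.rr
  symm
  apply Finset.card_bij (fun (h : ℕ) _ => (v : ℤ) - n + (h : ℤ))
  · intro h hh
    rw [Finset.mem_filter, Finset.mem_Icc] at hh
    obtain ⟨⟨h1, h2⟩, h3, h4⟩ := hh
    rw [Finset.mem_filter, Finset.mem_Ioc]
    have h5 := h3.one_lt
    refine ⟨⟨by omega, by omega⟩, u - h, v + h, by omega, by omega, by omega, by omega, ?_, ?_⟩
    · rw [Nat.totient_prime h3]; omega
    · rw [Nat.totient_prime h4]
      have := h4.one_lt
      omega
  · intro h _ h' _ heq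
    have : (h : ℤ) = h' := by linarith
    exact_mod_cast this
  · intro x hx
    rw [Finset.mem_filter, Finset.mem_Ioc] at hx
    obtain ⟨⟨h1, h2⟩, p, q, hp, hq, e1, e2, t1, t2⟩ := hx
    refine ⟨(x - ((v : ℤ) - n)).toNat, ?_, by omega⟩
    rw [Finset.mem_filter, Finset.mem_Icc]
    have f1 : u - (x - ((v : ℤ) - n)).toNat = p := by omega
    have f2 : v + (x - ((v : ℤ) - n)).toNat = q := by omega
    rw [f1, f2]
    exact ⟨⟨by omega, by omega⟩, tot_prime t1, tot_prime t2⟩

theorem abs_le' (n u v : ℕ) (huv : u + v = 2 * n) (h1 : u ≤ 3 * v) (h2 : v ≤ 3 * u) : 2 * |(v : ℤ) - n| ≤ n := by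
  rcases abs_cases ((v : ℤ) - n) with ⟨h, -⟩ | ⟨h, -⟩ <;> rw [h] <;> omega

open Classical in
/-- **Irregular windows.** -/
theorem result (B : ℝ) (hB : 2 ≤ B) (ε : ℝ) (hε : 0 < ε) : ∃ δ : ℝ, 0 < δ ∧ ∃ X₀ : ℝ, ∀ X : ℝ, X₀ ≤ X →
    X * Real.exp (-(Real.log X) ^ ε) ≤ (((Icc 1 ⌊X⌋₊).filter (Crowded B δ)).card : ℝ) ∧
    X * Real.exp (-(Real.log X) ^ ε) ≤ (((Icc 1 ⌊X⌋₊).filter (Thin B δ)).card : ℝ) := by
  obtain ⟨δ, hδ, X₀, h⟩ := Pool.Agent.X25.GM.main B ε hB hε
  refine ⟨δ, hδ, X₀, fun X hX => ?_⟩
  obtain ⟨h1, h2⟩ := h X hX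
  constructor
  · refine h1.trans ?_
    have : (Icc 1 ⌊X⌋₊).filter (Pool.Agent.X25.GM.Many B δ) ⊆ (Icc 1 ⌊X⌋₊).filter (Crowded B δ) := by
      intro n hn
      rw [Finset.mem_filter] at hn ⊢
      obtain ⟨u, v, a1, a2, a3, a4⟩ := hn.2
      refine ⟨hn.1, (v : ℤ) - n, abs_le' n u v a1 a2 a3, ?_⟩
      rw [sols_card n u v _ a1]
      refine le_trans (le_of_eq ?_) a4
      show (1 + δ) * (sing (2 * n) * (Real.log n) ^ (B - 2)) = _
      rw [← mul_assoc]
      rfl
    exact_mod_cast Finset.card_le_card this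
  · refine h2.trans ?_
    have : (Icc 1 ⌊X⌋₊).filter (Pool.Agent.X25.GM.Few B δ) ⊆ (Icc 1 ⌊X⌋₊).filter (Thin B δ) := by
      intro n hn
      rw [Finset.mem_filter] at hn ⊢
      obtain ⟨u, v, a1, a2, a3, a4⟩ := hn.2
      refine ⟨hn.1, (v : ℤ) - n, abs_le' n u v a1 a2 a3, ?_⟩
      rw [sols_card n u v _ a1]
      refine le_trans a4 (le_of_eq ?_)
      show _ = (1 - δ) * (sing (2 * n) * (Real.log n) ^ (B - 2))
      rw [← mul_assoc]
      rfl
    exact_mod_cast Finset.card_le_card this

end Pool.Agent.Results.MP_967f73_nt.IrregularWindows
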