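import Pool.Agent.X25.GP.Main

/-!
# MP_967f73_nt: the number of narrow progressions of solutions

For an integer `n` consider the integral solutions `x` of the system `φ(n - x) + 1 = n - x`, `φ(n + x) + 1 = n + x`.
By Hardy and Littlewood a window `(a, a + X]` should contain about `X · dens n` of them, up to constant factors,
with `dens n = 2n / (φ(2n) (log 2n)²)`. Here we count the progressions `x, x + d, ..., x + (k - 1) d` of `k` solutions
in the window with a difference `d ≤ D`, where `D` may be as small as a power of `log n`; the expected order is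
`X D (dens n)^k`.

1. For EVERY large `n` and every window of length `X ≥ n ^ θ` the number of progressions is at most a constant times
   the expected order.
2. For EVERY large `n`, all these windows and every set `S` of solutions in the window: `S` has at least the expected
   order of elements if and only if it contains at least the expected order of progressions of length `k` (up to
   constant factors). So Goldbach's problem with the expected order and the problem for narrow progressions
   of solutions of any length `k` are equivalent, for each `n` and each window.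
3. For all `n ≤ N` with at most `N / (log N)^U` exceptions the number of progressions has the expected order, in
   all windows of length `X ≥ n / (log n)^A` and for all `(log n)^B ≤ D ≤ X`; here the constants do not depend
   on `A` and `U`. The same is true for all but a proportion `(log N)^(-U)` of the members of any family of small
   additive energy, so for much thinner families.

Library: `Pool.Agent.Y843.AC` (progressions in sifted sets, never handed in for Goldbach's problem),
`Pool.Agent.TH935.GF`, `Pool.Agent.W93` (representations in windows for families of small energy).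
-/

set_option autoImplicit false

namespace Pool.Agent.Results.MP_967f73_nt.ProgressionCounts

open Finset

/-- The integer `x` is an integral solution of the system `φ(n - x) + 1 = n - x`, `φ(n + x) + 1 = n + x`
(`n - x = p ≥ 1`, `n + x = q ≥ 1`). -/
def Solves (n : ℕ) (x : ℤ) : Prop :=
  ∃ p q : ℕ, 1 ≤ p ∧ 1 ≤ q ∧ (p : ℤ) = n - x ∧ (q : ℤ) = n + x ∧ p.totient + 1 = p ∧ q.totient + 1 = q

open Classical in
/-- The solutions in the window `(a, a + X]`. -/
noncomputable def sols (n : ℕ) (a : ℤ) (X : ℕ) : Finset ℤ := (Ioc a (a + X)).filter (Solves n)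

open Classical in
/-- The number of the progressions `x, x + d, ..., x + (k - 1) d` in `S` with `1 ≤ d ≤ D`. -/
noncomputable def progs (k D : ℕ) (S : Finset ℤ) : ℕ :=
  ((S ×ˢ Icc 1 D).filter (fun q : ℤ × ℕ => ∀ j < k, q.1 + (j * q.2 : ℕ) ∈ S)).card

/-- The order of the density of the solutions predicted by Hardy and Littlewood: `2n / (φ(2n) (log 2n)²)`. -/
noncomputable def dens (n : ℕ) : ℝ := ((2 * n : ℕ) : ℝ) / ((2 * n).totient * Real.log ((2 * n : ℕ) : ℝ) ^ 2)

/-- In all windows of length `X ≥ n / (log n)^A` and for all `(log n)^B ≤ D ≤ X` the number of progressions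
of solutions is between `c X D (dens n)^k` and `C X D (dens n)^k`. -/
def Right (k : ℕ) (c C : ℝ) (B A n : ℕ) : Prop :=
  ∀ (a : ℤ) (X D : ℕ), -(n : ℤ) ≤ a → a + X ≤ n → (n : ℝ) / Real.log n ^ A ≤ X →
    Real.log n ^ B ≤ D → D ≤ X →
    c * (X * D * dens n ^ k) ≤ progs k D (sols n a X) ∧ (progs k D (sols n a X) : ℝ) ≤ C * (X * D * dens n ^ k)

/-- The additive energy of order `h` of the family `s 1, ..., s M`: the number of solutions of
`s (v 1) + ... + s (v h) = s (w 1) + ... + s (w h)` with all `v i`, `w i` in `{1, ..., M}`. -/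
def energy (h M : ℕ) (s : ℕ → ℕ) : ℕ :=
  (((Fintype.piFinset fun _ : Fin h => Icc 1 M) ×ˢ (Fintype.piFinset fun _ : Fin h => Icc 1 M)).filter
    (fun q => ∑ i, s (q.1 i) = ∑ i, s (q.2 i))).card

open Classical in
theorem result (k : ℕ) (hk : 1 ≤ k) :
    -- (1) every `n`: upper bound
    (∀ θ : ℝ, 0 < θ → ∃ C : ℝ, 0 < C ∧ ∃ B n₀ : ℕ, ∀ n : ℕ, n₀ ≤ n → ∀ (a : ℤ) (X D : ℕ),
      -(n : ℤ) ≤ a → a + X ≤ n → (n : ℝ) ^ θ ≤ X → Real.log n ^ B ≤ D →
      (progs k D (sols n a X) : ℝ) ≤ C * (X * D * dens n ^ k)) ∧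
    -- (2) every `n`, every set `S` of solutions: many solutions if and only if many progressions
    (∀ θ : ℝ, 0 < θ → ∀ δ : ℝ, 0 < δ → ∃ c : ℝ, 0 < c ∧ ∃ B n₀ : ℕ, ∀ n : ℕ, n₀ ≤ n →
      ∀ (a : ℤ) (X D : ℕ), -(n : ℤ) ≤ a → a + X ≤ n → (n : ℝ) ^ θ ≤ X → Real.log n ^ B ≤ D → D ≤ X →
      ∀ S : Finset ℤ, S ⊆ sols n a X →
        (δ * (X * dens n) ≤ S.card → c * (X * D * dens n ^ k) ≤ progs k D S) ∧
        (δ * (X * D * dens n ^ k) ≤ progs k D S → c * (X * dens n) ≤ S.card)) ∧
    -- (3) almost all `n`, and almost all members of families of small energy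
    ∃ c C : ℝ, 0 < c ∧ 0 < C ∧ ∃ B : ℕ,
      (∀ A U : ℕ, ∃ N₀ : ℕ, ∀ N : ℕ, N₀ ≤ N →
        (((Icc 1 N).filter (fun n => ¬ Right k c C B A n)).card : ℝ) ≤ N / Real.log N ^ U) ∧
      ∀ h B₀ C₀ A U : ℕ, 1 ≤ h → ∃ N₀ : ℕ, ∀ N : ℕ, N₀ ≤ N → ∀ (M : ℕ) (s : ℕ → ℕ),
        (∀ m ∈ Icc 1 M, s m ≤ B₀ * N) →
        (energy h M s : ℝ) * N ≤ Real.log N ^ C₀ * (M : ℝ) ^ (2 * h) →
        (((Icc 1 M).filter (fun m => ¬ Right k c C B A (s m))).card : ℝ) ≤ M / Real.log N ^ U := by
  refine ⟨fun θ hθ => Pool.Agent.X25.GP.upper k hk θ hθ,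
    fun θ hθ δ hδ => Pool.Agent.X25.GP.lower k hk θ hθ δ hδ, ?_⟩
  obtain ⟨c, C, hc, hC, B, h⟩ := Pool.Agent.X25.GP.families k hk
  have h' : ∀ h B₀ C₀ A U : ℕ, 1 ≤ h → ∃ N₀ : ℕ, ∀ N : ℕ, N₀ ≤ N → ∀ (M : ℕ) (s : ℕ → ℕ),
        (∀ m ∈ Icc 1 M, s m ≤ B₀ * N) →
        (energy h M s : ℝ) * N ≤ Real.log N ^ C₀ * (M : ℝ) ^ (2 * h) →
        (((Icc 1 M).filter (fun m => ¬ Right k c C B A (s m))).card : ℝ) ≤ M / Real.log N ^ U := by
    intro h1 B₀ C₀ A U hh
    obtain ⟨N₀, hN₀⟩ := h h1 B₀ C₀ A U hh
    refine ⟨N₀, fun N hN M s hs hE => ?_⟩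
    exact hN₀ N hN M s hs hE _ (Finset.filter_subset _ _) fun m hm => (Finset.mem_filter.1 hm).2
  refine ⟨c, C, hc, hC, B, fun A U => ?_, h'⟩
  obtain ⟨N₀, hN₀⟩ := h' 1 1 0 A U le_rfl
  refine ⟨N₀, fun N hN => hN₀ N hN N (fun m => m) (fun m hm => by
    have := (Finset.mem_Icc.1 hm).2
    omega) ?_⟩
  -- the energy of order one
  have h1 : energy 1 N (fun m => m) ≤ N := by
    unfold energy
    calc _ ≤ (Icc 1 N).card := by
          apply Finset.card_le_card_of_injOn (fun q => q.1 0)
          · intro q hq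
            have h2 := (Finset.mem_product.1 (Finset.mem_filter.1 (Finset.mem_coe.1 hq)).1).1
            exact Finset.mem_coe.2 (Fintype.mem_piFinset.1 h2 0)
          · intro q hq r hr hqr
            have h2 := (Finset.mem_filter.1 (Finset.mem_coe.1 hq)).2
            have h3 := (Finset.mem_filter.1 (Finset.mem_coe.1 hr)).2
            simp only [Fin.sum_univ_one] at h2 h3
            have h4 : q.1 0 = r.1 0 := hqr
            apply Prod.ext
            · funext i
              rw [Subsingleton.elim i 0]; exact h4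
            · funext i
              rw [Subsingleton.elim i 0, ← h2, ← h3]; exact h4
      _ = N := by simp
  have h2 : (energy 1 N (fun m => m) : ℝ) ≤ N := by exact_mod_cast h1
  have h3 : (0 : ℝ) ≤ N := Nat.cast_nonneg N
  rw [pow_zero, one_mul]
  calc (energy 1 N (fun m => m) : ℝ) * N ≤ N * N := by gcongr
    _ = (N : ℝ) ^ (2 * 1) := by ring

end Pool.Agent.Results.MP_967f73_nt.ProgressionCounts
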